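import Pool.Agent.H357R2.SI.TwoSided

/-! Greedy covering lemmas for backward windows (mirror images of `Pool.Agent.H357R2.SI`). -/

set_option autoImplicit false

open Filter Topology

namespace Pool.Agent.H622R3.SP

open Pool.Agent.H357R2.SI

lemma pc_pred_le {b : ℕ} (hb : 1 ≤ b) : pc (b - 1) b ≤ 1 := by
  have h := pc_succ (b - 1)
  rw [Nat.sub_add_cancel hb] at h
  rw [h]
  split_ifs <;> omega

open Classical in
/-- Greedy covering from the right: many right endpoints of dense windows. -/
lemma gb_lower (c : ℝ) (hc : 0 < c) (K : ℕ) (d : ℕ) : ∀ a b : ℕ, b - a = d → a ≤ b →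
    (pc a b : ℝ) ≤ c * ((b : ℝ) - a + K) + (((Finset.Ioc a b).filter (fun n => ∀ H : ℕ, 1 ≤ H →
      H ≤ K → c * H ≤ pc (n - H) n)).card : ℝ) := by
  induction d using Nat.strong_induction_on with
  | _ d ih =>
    intro a b hd hab
    have hK0 : (0 : ℝ) ≤ K := Nat.cast_nonneg K
    rcases Nat.eq_or_lt_of_le hab with rfl | hlt
    · simp only [pc, Finset.Ioc_self, Finset.filter_empty, Finset.card_empty, Nat.cast_zero,
        sub_self, zero_add, add_zero]
      positivity
    have hltr : (a : ℝ) + 1 ≤ b := by exact_mod_cast hlt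
    have hb1 : ((b - 1 : ℕ) : ℝ) = b - 1 := by
      rw [Nat.cast_sub (by omega)]
      simp
    by_cases hgood : ∀ H : ℕ, 1 ≤ H → H ≤ K → c * H ≤ pc (b - H) b
    · have h1 := ih (b - 1 - a) (by omega) a (b - 1) rfl (by omega)
      have h2 := pc_add (a := a) (b := b - 1) (c := b) (by omega) (by omega)
      have h3 := pc_pred_le (b := b) (by omega)
      have h4 : (pc a b : ℝ) ≤ pc a (b - 1) + 1 := by
        rw [← h2]; push_cast
        have : (pc (b - 1) b : ℝ) ≤ 1 := by exact_mod_cast h3
        linarith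
      have h5 : ((Finset.Ioc a b).filter (fun n => ∀ H : ℕ, 1 ≤ H →
          H ≤ K → c * H ≤ pc (n - H) n)).card = ((Finset.Ioc a (b - 1)).filter (fun n => ∀ H : ℕ,
          1 ≤ H → H ≤ K → c * H ≤ pc (n - H) n)).card + 1 := by
        have h6 : Finset.Ioc a b = insert b (Finset.Ioc a (b - 1)) := by
          ext x
          simp only [Finset.mem_Ioc, Finset.mem_insert]
          omega
        rw [h6, Finset.filter_insert, if_pos hgood, Finset.card_insert_of_notMem]
        simp only [Finset.mem_filter, Finset.mem_Ioc]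
        omega
      rw [h5]
      rw [hb1] at h1
      push_cast at h1 ⊢
      nlinarith
    · push Not at hgood
      obtain ⟨H, hH1, hHK, hH⟩ := hgood
      have hHKr : (H : ℝ) ≤ K := by exact_mod_cast hHK
      by_cases hend : b ≤ a + H
      · have h1 : (pc a b : ℝ) ≤ pc (b - H) b := by exact_mod_cast pc_anti (by omega)
        have h2 : 0 ≤ (((Finset.Ioc a b).filter (fun n => ∀ H : ℕ, 1 ≤ H →
          H ≤ K → c * H ≤ pc (n - H) n)).card : ℝ) := Nat.cast_nonneg _
        have h3 : c * H ≤ c * ((b : ℝ) - a + K) := by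
          apply mul_le_mul_of_nonneg_left _ hc.le
          linarith
        linarith
      · push Not at hend
        have h1 := ih (b - H - a) (by omega) a (b - H) rfl (by omega)
        have h2 := pc_add (a := a) (b := b - H) (c := b) (by omega) (by omega)
        have h3 : (pc a b : ℝ) = pc a (b - H) + pc (b - H) b := by exact_mod_cast h2.symm
        have h4 : ((Finset.Ioc a (b - H)).filter (fun n => ∀ H : ℕ, 1 ≤ H →
          H ≤ K → c * H ≤ pc (n - H) n)).card ≤ ((Finset.Ioc a b).filter (fun n => ∀ H : ℕ, 1 ≤ H →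
          H ≤ K → c * H ≤ pc (n - H) n)).card := by
          apply Finset.card_le_card
          apply Finset.filter_subset_filter
          apply Finset.Ioc_subset_Ioc_right
          omega
        have h5 : (((Finset.Ioc a (b - H)).filter (fun n => ∀ H : ℕ, 1 ≤ H →
          H ≤ K → c * H ≤ pc (n - H) n)).card : ℝ) ≤ (((Finset.Ioc a b).filter (fun n => ∀ H : ℕ,
          1 ≤ H → H ≤ K → c * H ≤ pc (n - H) n)).card : ℝ) := by exact_mod_cast h4
        have hbH : ((b - H : ℕ) : ℝ) = b - H := Nat.cast_sub (by omega)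
        rw [h3]
        rw [hbH] at h1
        nlinarith

open Classical in
/-- Greedy covering: points with a dense backward window are rare. -/
lemma gb_upper (c : ℝ) (hc : 0 < c) (K : ℕ) (d : ℕ) : ∀ a b : ℕ, b - a = d → a ≤ b →
    c * (((Finset.Ioc a b).filter (fun n => ∃ H : ℕ, 1 ≤ H ∧ H ≤ K ∧
      c * H ≤ pc (n - H) n)).card : ℝ) ≤ pc (a - K) b := by
  induction d using Nat.strong_induction_on with
  | _ d ih =>
    intro a b hd hab
    rcases Nat.eq_or_lt_of_le hab with rfl | hlt
    · simp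
    by_cases hbad : ∃ H : ℕ, 1 ≤ H ∧ H ≤ K ∧ c * H ≤ pc (b - H) b
    · obtain ⟨H, hH1, hHK, hH⟩ := hbad
      by_cases hend : b ≤ a + H
      · have h1 : (((Finset.Ioc a b).filter (fun n => ∃ H : ℕ, 1 ≤ H ∧ H ≤ K ∧
            c * H ≤ pc (n - H) n)).card : ℝ) ≤ H := by
          have h2 := Finset.card_filter_le (Finset.Ioc a b) (fun n => ∃ H : ℕ, 1 ≤ H ∧ H ≤ K ∧
            c * H ≤ pc (n - H) n)
          rw [Nat.card_Ioc] at h2
          exact_mod_cast h2.trans (by omega)
        have h3 : (pc (b - H) b : ℝ) ≤ pc (a - K) b := by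
          exact_mod_cast pc_anti (by omega)
        calc _ ≤ c * H := mul_le_mul_of_nonneg_left h1 hc.le
          _ ≤ _ := hH.trans h3
      · push Not at hend
        have h1 := ih (b - H - a) (by omega) a (b - H) rfl (by omega)
        have h2 : Finset.Ioc a b = Finset.Ioc a (b - H) ∪ Finset.Ioc (b - H) b :=
          (Finset.Ioc_union_Ioc_eq_Ioc (by omega) (by omega)).symm
        rw [h2, Finset.filter_union]
        have h3 := Finset.card_union_le ((Finset.Ioc a (b - H)).filter
          (fun n => ∃ H : ℕ, 1 ≤ H ∧ H ≤ K ∧ c * H ≤ pc (n - H) n))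
          ((Finset.Ioc (b - H) b).filter
          (fun n => ∃ H : ℕ, 1 ≤ H ∧ H ≤ K ∧ c * H ≤ pc (n - H) n))
        have h4 := Finset.card_filter_le (Finset.Ioc (b - H) b)
          (fun n => ∃ H : ℕ, 1 ≤ H ∧ H ≤ K ∧ c * H ≤ pc (n - H) n)
        rw [Nat.card_Ioc] at h4
        have h5 : (((Finset.Ioc a (b - H)).filter
          (fun n => ∃ H : ℕ, 1 ≤ H ∧ H ≤ K ∧ c * H ≤ pc (n - H) n) ∪
          (Finset.Ioc (b - H) b).filter
          (fun n => ∃ H : ℕ, 1 ≤ H ∧ H ≤ K ∧ c * H ≤ pc (n - H) n)).card : ℝ) ≤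
          H + (((Finset.Ioc a (b - H)).filter
          (fun n => ∃ H : ℕ, 1 ≤ H ∧ H ≤ K ∧ c * H ≤ pc (n - H) n)).card : ℝ) := by
          exact_mod_cast h3.trans (by omega)
        have h7 := pc_add (a := a - K) (b := b - H) (c := b) (by omega) (by omega)
        have h8 : (pc (a - K) b : ℝ) = pc (a - K) (b - H) + pc (b - H) b := by
          exact_mod_cast h7.symm
        rw [h8]
        have h9 := mul_le_mul_of_nonneg_left h5 hc.le
        rw [mul_add] at h9
        linarith
    · have h1 := ih (b - 1 - a) (by omega) a (b - 1) rfl (by omega)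
      have h2 : (Finset.Ioc a b).filter (fun n => ∃ H : ℕ, 1 ≤ H ∧ H ≤ K ∧ c * H ≤ pc (n - H) n) =
          (Finset.Ioc a (b - 1)).filter
            (fun n => ∃ H : ℕ, 1 ≤ H ∧ H ≤ K ∧ c * H ≤ pc (n - H) n) := by
        ext n
        simp only [Finset.mem_filter, Finset.mem_Ioc]
        constructor
        · rintro ⟨⟨h3, h4⟩, h5⟩
          refine ⟨⟨h3, ?_⟩, h5⟩
          by_contra h6
          have : n = b := by omega
          rw [this] at h5
          exact hbad h5
        · rintro ⟨⟨h3, h4⟩, h5⟩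
          exact ⟨⟨h3, by omega⟩, h5⟩
      rw [h2]
      refine h1.trans ?_
      exact_mod_cast pc_mono (by omega)

open Classical in
/-- Points just to the right of a set of primes: second moment method. -/
lemma moment_back (G : Finset ℕ) (X N T : ℕ) (hTX : T ≤ X)
    (hG : ∀ g ∈ G, X ≤ g ∧ g + T ≤ N ∧ g.Prime)
    (B : ℝ) (hB : 0 < B)
    (hmom : ∑ n ∈ Finset.range N, ((pc n (n + T) : ℝ)) ^ 2 ≤ B) :
    ((T : ℝ) * G.card) ^ 2 / B ≤
      (((Finset.Ico X N).filter (fun m => ∃ g ∈ G, g ≤ m ∧ m < g + T)).card : ℝ) := by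
  set A := (Finset.Ico X N).filter (fun m => ∃ g ∈ G, g ≤ m ∧ m < g + T) with hA
  let r : ℕ → ℕ := fun m => (G.filter (fun g => g ≤ m ∧ m < g + T)).card
  -- total mass
  have h1 : T * G.card ≤ ∑ m ∈ A, r m := by
    have h2 : ∑ m ∈ Finset.Ico X N, r m = ∑ m ∈ A, r m := by
      rw [hA, Finset.sum_filter]
      apply Finset.sum_congr rfl
      intro m _
      split_ifs with h
      · rfl
      · simp only [r]
        rw [Finset.card_eq_zero, Finset.filter_eq_empty_iff]
        intro g hg hh
        exact h ⟨g, hg, hh⟩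
    rw [← h2]
    simp only [r, Finset.card_filter]
    rw [Finset.sum_comm]
    have h3 : ∀ g ∈ G, T ≤ ∑ m ∈ Finset.Ico X N, if g ≤ m ∧ m < g + T then 1 else 0 := by
      intro g hg
      obtain ⟨hg1, hg2, -⟩ := hG g hg
      rw [← Finset.card_filter]
      have h4 : Finset.Ico g (g + T) ⊆ (Finset.Ico X N).filter (fun m => g ≤ m ∧ m < g + T) := by
        intro m hm
        rw [Finset.mem_Ico] at hm
        rw [Finset.mem_filter, Finset.mem_Ico]
        omega
      have h5 := Finset.card_le_card h4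
      rw [Nat.card_Ico] at h5
      omega
    calc T * G.card = ∑ _g ∈ G, T := by rw [Finset.sum_const, smul_eq_mul, mul_comm]
      _ ≤ _ := Finset.sum_le_sum h3
  have h1r : (T : ℝ) * G.card ≤ ∑ m ∈ A, (r m : ℝ) := by exact_mod_cast h1
  -- second moment
  have h2 : ∑ m ∈ A, (r m : ℝ) ^ 2 ≤ B := by
    refine le_trans ?_ hmom
    have hAX : ∀ m ∈ A, X ≤ m ∧ m < N := by
      intro m hm
      rw [hA, Finset.mem_filter, Finset.mem_Ico] at hm
      exact hm.1
    have h3 : ∀ m ∈ A, (r m : ℝ) ^ 2 ≤ (fun n => (pc n (n + T) : ℝ) ^ 2) (m - T) := by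
      intro m hm
      have h4 : r m ≤ pc (m - T) (m - T + T) := by
        simp only [r, pc]
        apply Finset.card_le_card
        intro g hg
        rw [Finset.mem_filter] at hg
        obtain ⟨hg0, hg1, hg2⟩ := hg
        obtain ⟨hg3, -, hg4⟩ := hG g hg0
        have := (hAX m hm).1
        rw [Finset.mem_filter, Finset.mem_Ioc]
        exact ⟨by omega, hg4⟩
      have h5 : (r m : ℝ) ≤ pc (m - T) (m - T + T) := by exact_mod_cast h4
      simp only
      gcongr
    refine (Finset.sum_le_sum h3).trans ?_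
    have hinj : Set.InjOn (fun m => m - T) (A : Set ℕ) := by
      intro m hm m' hm' h
      have h4 := (hAX m hm).1
      have h5 := (hAX m' hm').1
      simp only at h
      omega
    rw [← Finset.sum_image (f := fun n => (pc n (n + T) : ℝ) ^ 2) hinj]
    apply Finset.sum_le_sum_of_subset_of_nonneg
    · intro n hn
      rw [Finset.mem_image] at hn
      obtain ⟨m, hm, rfl⟩ := hn
      have := (hAX m hm).2
      rw [Finset.mem_range]
      omega
    · intro _ _ _
      positivity
  -- Cauchy-Schwarz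
  have h3 : (∑ m ∈ A, (r m : ℝ)) ^ 2 ≤ (A.card : ℝ) * ∑ m ∈ A, (r m : ℝ) ^ 2 :=
    sq_sum_le_card_mul_sum_sq
  rw [div_le_iff₀ hB]
  calc ((T : ℝ) * G.card) ^ 2 ≤ (∑ m ∈ A, (r m : ℝ)) ^ 2 := by gcongr
    _ ≤ (A.card : ℝ) * ∑ m ∈ A, (r m : ℝ) ^ 2 := h3
    _ ≤ (A.card : ℝ) * B := by gcongr

/-- The prime number theorem in windows `(a, b]` with arbitrary `a ≤ b`. -/
lemma pi_window (e : ℝ) (he : 0 < e) (he1 : e ≤ 1 / 4) : ∃ B₀ : ℕ, 3 ≤ B₀ ∧ ∀ b : ℕ, B₀ ≤ b →
    ∀ a : ℕ, a ≤ b → (b : ℝ) - a - 9 * e * b ≤ pc a b * Real.log b ∧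
      pc a b * Real.log b ≤ (b : ℝ) - a + 3 * e * b := by
  obtain ⟨X₀, hX3, hX⟩ := pnt e he
  have hr : Tendsto (fun b : ℕ => (b : ℝ)) atTop atTop := tendsto_natCast_atTop_atTop
  have hl : Tendsto (fun b : ℕ => Real.log (b : ℝ)) atTop atTop :=
    Real.tendsto_log_atTop.comp hr
  obtain ⟨B₁, hB₁⟩ := ((hl.eventually_ge_atTop (Real.log (1 / e) / e)).and
    ((hr.eventually_ge_atTop ((X₀ : ℝ) / e)).and (hr.eventually_ge_atTop (2 / e)))).exists_forall_of_atTop
  refine ⟨max B₁ (max X₀ 3), by omega, fun b hb a hab => ?_⟩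
  obtain ⟨h1, h2, h3⟩ := hB₁ b (by omega)
  have hbX : X₀ ≤ b := by omega
  have hb3 : (3 : ℝ) ≤ b := by exact_mod_cast (by omega : 3 ≤ b)
  have hL : 0 < Real.log b := Real.log_pos (by linarith)
  have habr : (a : ℝ) ≤ b := by exact_mod_cast hab
  have ha0 : (0 : ℝ) ≤ a := Nat.cast_nonneg a
  rw [div_le_iff₀ he] at h1 h2 h3
  obtain ⟨p1, p2⟩ := hX b hbX
  rw [div_le_iff₀ hL] at p1
  rw [le_div_iff₀ hL] at p2
  rw [pc_eq_sub hab, sub_mul]
  constructor
  · -- upper bound for π(a)
    set a' : ℕ := max a ⌈e * b⌉₊ with ha'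
    have h4 : (e * b : ℝ) ≤ a' := by
      rw [ha']; push_cast
      exact (Nat.le_ceil _).trans (le_max_right _ _)
    have h5 : (a' : ℝ) ≤ a + e * b + 1 := by
      rw [ha']; push_cast
      have := Nat.ceil_lt_add_one (show 0 ≤ e * (b : ℝ) by positivity)
      apply max_le
      · have : 0 ≤ e * (b : ℝ) := by positivity
        linarith
      · linarith
    have h6 : X₀ ≤ a' := by
      have : (X₀ : ℝ) ≤ a' := by nlinarith
      exact_mod_cast this
    have ha'1 : (1 : ℝ) < a' := by
      have : (3 : ℝ) ≤ a' := by exact_mod_cast hX3.trans h6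
      linarith
    have hla' : 0 < Real.log a' := Real.log_pos ha'1
    have h7 : (1 - e) * Real.log b ≤ Real.log a' := by
      have h8 : Real.log (e * b) ≤ Real.log a' := Real.log_le_log (by positivity) h4
      rw [Real.log_mul he.ne' (by linarith)] at h8
      rw [one_div, Real.log_inv] at h1
      nlinarith
    have h8 := (hX a' h6).2
    rw [le_div_iff₀ hla'] at h8
    have h9 : (Nat.primeCounting a : ℝ) ≤ Nat.primeCounting a' := by
      exact_mod_cast Nat.monotone_primeCounting (le_max_left _ _)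
    have h10 : (Nat.primeCounting a' : ℝ) * ((1 - e) * Real.log b) ≤ (1 + e) * a' :=
      (mul_le_mul_of_nonneg_left h7 (Nat.cast_nonneg _)).trans h8
    have h11 : (Nat.primeCounting a' : ℝ) * Real.log b ≤ (1 + 4 * e) * a' := by
      have h12 : (1 - e) * ((Nat.primeCounting a' : ℝ) * Real.log b) ≤
          (1 - e) * ((1 + 4 * e) * a') := by
        have h13 : (1 + e) ≤ (1 - e) * (1 + 4 * e) := by nlinarith
        calc (1 - e) * ((Nat.primeCounting a' : ℝ) * Real.log b) =
            (Nat.primeCounting a' : ℝ) * ((1 - e) * Real.log b) := by ring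
          _ ≤ (1 + e) * a' := h10
          _ ≤ ((1 - e) * (1 + 4 * e)) * a' := by gcongr
          _ = _ := by ring
      exact le_of_mul_le_mul_left h12 (by linarith)
    have h14 : (Nat.primeCounting a : ℝ) * Real.log b ≤ (1 + 4 * e) * (a + e * b + 1) := by
      refine (mul_le_mul_of_nonneg_right h9 hL.le).trans (h11.trans ?_)
      gcongr
    have h15 : (1 + 4 * e) * (a + e * b + 1) ≤ a + 8 * e * b := by nlinarith
    linarith
  · -- lower bound for π(a)
    have h4 : (1 - e) * a - e * b ≤ (Nat.primeCounting a : ℝ) * Real.log b := by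
      rcases Nat.lt_or_ge a X₀ with h5 | h5
      · have h6 : (a : ℝ) ≤ X₀ := by exact_mod_cast h5.le
        have h7 : 0 ≤ (Nat.primeCounting a : ℝ) * Real.log b := by positivity
        nlinarith
      · have ha3 : (3 : ℝ) ≤ a := by exact_mod_cast hX3.trans h5
        have hla : 0 < Real.log a := Real.log_pos (by linarith)
        have h6 := (hX a h5).1
        rw [div_le_iff₀ hla] at h6
        have h7 : Real.log a ≤ Real.log b := Real.log_le_log (by linarith) habr
        have h8 : (Nat.primeCounting a : ℝ) * Real.log a ≤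
            (Nat.primeCounting a : ℝ) * Real.log b := by gcongr
        have : 0 ≤ e * (b : ℝ) := by positivity
        linarith
    nlinarith

end Pool.Agent.H622R3.SP
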