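import Pool.Agent.H622R3.SP.Back

/-! A positive proportion of the real numbers `x` have the right number of primes in `(x - H, x)`,
up to constant factors, simultaneously for all `H` between `K log x` and `x`. -/

set_option autoImplicit false

open Filter Topology

namespace Pool.Agent.H622R3.SP

open Pool.Agent.H357R2.SI

/-- number of primes in the open interval `(x - H, x)` -/
noncomputable def cb (x H : ℝ) : ℕ := {p : ℕ | p.Prime ∧ x - H < p ∧ (p : ℝ) < x}.ncard

/-- the two-sided bound at all scales -/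
def AS (δ K lam x : ℝ) : Prop := ∀ H : ℝ, K * Real.log x ≤ H → H ≤ x →
  (1 - δ) * H / Real.log x ≤ cb x H ∧ (cb x H : ℝ) ≤ lam * H / Real.log x

lemma cb_finite (x H : ℝ) : {p : ℕ | p.Prime ∧ x - H < p ∧ (p : ℝ) < x}.Finite := by
  refine (Set.finite_Iio ⌈x⌉₊).subset fun p hp => ?_
  exact Nat.lt_ceil.2 hp.2.2

lemma cb_ge {m g H' : ℕ} {x H : ℝ} (hgm : g ≤ m) (hx1 : (m : ℝ) < x)
    (h : x - H < (g : ℝ) - H' + 1) (hH' : H' ≤ g) : pc (g - H') g ≤ cb x H := by
  unfold cb pc
  rw [← Set.ncard_coe_finset]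
  apply Set.ncard_le_ncard _ (cb_finite x H)
  intro p hp
  simp only [Finset.coe_filter, Finset.mem_Ioc, Set.mem_ofPred_eq] at hp ⊢
  obtain ⟨⟨h1, h2⟩, h3⟩ := hp
  refine ⟨h3, ?_, ?_⟩
  · have h4 : g + 1 ≤ p + H' := by omega
    have h5 : (g : ℝ) + 1 ≤ p + H' := by exact_mod_cast h4
    linarith
  · have h4 : (p : ℝ) ≤ m := by exact_mod_cast h2.trans hgm
    linarith

lemma cb_le {m h1 : ℕ} {x H : ℝ} (hx1 : (m : ℝ) < x) (hx2 : x < m + 1) (hH : H < h1) :
    cb x H ≤ pc (m - h1) m := by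
  unfold cb pc
  rw [← Set.ncard_coe_finset]
  apply Set.ncard_le_ncard _ (Finset.finite_toSet _)
  intro p hp
  simp only [Finset.coe_filter, Finset.mem_Ioc, Set.mem_ofPred_eq] at hp ⊢
  obtain ⟨h3, h4, h5⟩ := hp
  have h6 : p ≤ m := by
    have h7 : (p : ℝ) < m + 1 := by linarith
    have h8 : p < m + 1 := by exact_mod_cast h7
    omega
  refine ⟨⟨?_, h6⟩, h3⟩
  rcases Nat.lt_or_ge m h1 with h7 | h7
  · have := h3.pos
    omega
  · have h8 : (m : ℝ) < p + h1 := by linarith
    have h9 : m < p + h1 := by exact_mod_cast h8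
    omega

open Classical in
theorem back_all_scales (δ : ℝ) (hδ0 : 0 < δ) (hδ1 : δ < 1) :
    ∃ K lam c : ℝ, 0 < K ∧ 0 < lam ∧ 0 < c ∧ ∀ᶠ N : ℕ in atTop,
      c * N ≤ (((Finset.range N).filter (fun m : ℕ => ∀ x : ℝ, (m : ℝ) < x → x < m + 1 →
        AS δ K lam x)).card : ℝ) := by
  classical
  obtain ⟨C, hC1, N₁, hN₁3, hmom⟩ := second_moment_bound
  have hC0 : 0 < C := by linarith
  set μ : ℝ := 1 - δ / 2 with hμ
  have hμ0 : 0 < μ := by rw [hμ]; linarith
  have hμ1 : μ < 1 := by rw [hμ]; linarith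
  set η : ℝ := δ / 100 with hη
  have hη0 : 0 < η := by positivity
  have hη1 : η ≤ 1 / 100 := by rw [hη]; linarith
  have hη2 : η ^ 2 ≤ η / 100 := by nlinarith
  set e : ℝ := δ * η ^ 2 / 100 with he
  have he0 : 0 < e := by positivity
  have heη2 : e ≤ η ^ 2 / 100 := by
    rw [he]
    have : 0 < η ^ 2 := by positivity
    nlinarith
  have he4 : e ≤ 1 / 4 := by nlinarith
  obtain ⟨B₀, hB₀3, hB₀⟩ := pi_window e he0 he4
  set c1 : ℝ := δ ^ 2 / (64 * C) with hc1
  have hc10 : 0 < c1 := by positivity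
  set lam' : ℝ := 4 / c1 with hlam'
  have hlam'0 : 0 < lam' := by positivity
  refine ⟨8 / δ, 2 * lam' + 8, c1 / 2, by positivity, by positivity, by positivity, ?_⟩
  have hNlim : Tendsto (fun N : ℕ => η * (N : ℝ)) atTop atTop :=
    (tendsto_natCast_atTop_atTop).const_mul_atTop hη0
  have hXlim : Tendsto (fun N : ℕ => ⌊η * (N : ℝ)⌋₊) atTop atTop :=
    tendsto_nat_floor_atTop.comp hNlim
  have hNr : Tendsto (fun N : ℕ => (N : ℝ)) atTop atTop := tendsto_natCast_atTop_atTop
  have hlogN : Tendsto (fun N : ℕ => Real.log (N : ℝ)) atTop atTop :=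
    Real.tendsto_log_atTop.comp hNr
  have hlogsmall : ∀ᶠ N : ℕ in atTop, Real.log N ≤ η ^ 2 * N := by
    have h := Real.isLittleO_log_id_atTop.bound (by positivity : (0 : ℝ) < η ^ 2)
    have h2 := hNr.eventually h
    filter_upwards [h2, eventually_ge_atTop 1] with N hN hN1
    have hN1' : (1 : ℝ) ≤ N := by exact_mod_cast hN1
    rwa [Real.norm_of_nonneg (Real.log_nonneg hN1'), id, Real.norm_of_nonneg (by linarith)] at hN
  filter_upwards [hXlim.eventually_ge_atTop (B₀ + 1), hNlim.eventually_ge_atTop 2,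
    hlogN.eventually_ge_atTop (Real.log (2 / η) / η), hlogN.eventually_ge_atTop 4,
    hNr.eventually_ge_atTop (2 / η ^ 2), eventually_ge_atTop N₁, hlogsmall]
    with N hXN hN2 hLN hL4 hNbig hNN₁ hlogs
  set X : ℕ := ⌊η * (N : ℝ)⌋₊ with hX
  have hNpos : (0 : ℝ) < N := by
    by_contra h
    have : (N : ℝ) ≤ 0 := not_lt.mp h
    nlinarith
  have hXle : (X : ℝ) ≤ η * N := Nat.floor_le (by positivity)
  have hXge : η * N / 2 ≤ X := by
    have := Nat.lt_floor_add_one (η * (N : ℝ))
    rw [← hX] at this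
    linarith
  have hX3 : (3 : ℝ) ≤ X := by
    have : 3 ≤ X := by omega
    exact_mod_cast this
  set L : ℝ := Real.log N with hL
  set ℓ : ℝ := Real.log X with hℓ
  have hXN' : (X : ℝ) ≤ N := by nlinarith
  have hℓ0 : 0 < ℓ := Real.log_pos (by linarith)
  have hL0 : 0 < L := by linarith
  have hℓL : ℓ ≤ L := Real.log_le_log (by linarith) hXN'
  have hratio : (1 - η) * L ≤ ℓ := by
    have h1 : Real.log (η * N / 2) ≤ ℓ := Real.log_le_log (by positivity) hXge
    have h2 : Real.log (η * N / 2) = L - Real.log (2 / η) := by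
      rw [show η * (N : ℝ) / 2 = N / (2 / η) by field_simp, Real.log_div (by positivity)
        (by positivity)]
    rw [div_le_iff₀ hη0] at hLN
    nlinarith
  have hL2ℓ : L ≤ 2 * ℓ := by nlinarith
  set T : ℕ := ⌊L⌋₊ with hT
  have hTL : (T : ℝ) ≤ L := Nat.floor_le hL0.le
  have hTL2 : L / 2 ≤ T := by
    have := Nat.lt_floor_add_one L
    rw [← hT] at this
    linarith
  have hT1 : (1 : ℝ) ≤ T := by linarith
  set K0 : ℕ := ⌊η ^ 2 * (N : ℝ)⌋₊ with hK0
  have hK0le : (K0 : ℝ) ≤ η ^ 2 * N := Nat.floor_le (by positivity)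
  have hη2N : 2 ≤ η ^ 2 * N := by
    rwa [div_le_iff₀ (by positivity), mul_comm] at hNbig
  have hK01 : 1 ≤ K0 := by
    rw [hK0]
    apply Nat.le_floor
    push_cast
    linarith
  have hTηN : (T : ℝ) ≤ η ^ 2 * N := hTL.trans hlogs
  have hη2N' : η ^ 2 * N ≤ η * N / 100 := by nlinarith
  have hTX : T ≤ X := by
    have : (T : ℝ) ≤ X := by linarith
    exact_mod_cast this
  have hηN : η * N ≤ N / 100 := by
    have := mul_le_mul_of_nonneg_right hη1 hNpos.le
    linarith
  have hXTN : (X : ℝ) + T + 1 ≤ N := by linarith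
  have hXTN' : X + T + 1 ≤ N := by exact_mod_cast hXTN
  set c : ℝ := μ / ℓ with hc
  have hc0 : 0 < c := by positivity
  set G := (Finset.Ioc X (N - T)).filter (fun n => ∀ H : ℕ, 1 ≤ H →
      H ≤ K0 → c * H ≤ pc (n - H) n) with hG
  have hNT : ((N - T : ℕ) : ℝ) = N - T := Nat.cast_sub (by omega)
  -- lower bound for G
  have hgc := gb_lower c hc0 K0 (N - T - X) X (N - T) rfl (by omega)
  rw [← hG, hNT] at hgc
  have hpc : (1 - 2 * η) * N / L ≤ pc X (N - T) := by
    have h1 := (hB₀ (N - T) (by omega) X (by omega)).1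
    rw [hNT] at h1
    have h2 : (pc X (N - T) : ℝ) * Real.log (N - T) ≤ pc X (N - T) * L := by
      apply mul_le_mul_of_nonneg_left _ (Nat.cast_nonneg _)
      apply Real.log_le_log
      · nlinarith
      · linarith
    rw [div_le_iff₀ hL0]
    refine le_trans ?_ (h1.trans h2)
    have h3 : 9 * e * (N - T) ≤ 9 * e * N := by
      apply mul_le_mul_of_nonneg_left _ (by positivity)
      linarith
    have h4 : e * N ≤ η ^ 2 / 100 * N := by gcongr
    nlinarith
  have hcb : c * (((N : ℝ) - T) - X + K0) ≤ (1 - δ / 2 + 3 * η) * N / L := by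
    have h1 : ((N : ℝ) - T) - X + K0 ≤ (1 + η ^ 2) * N := by
      linarith
    calc c * (((N : ℝ) - T) - X + K0) ≤ c * ((1 + η ^ 2) * N) := by gcongr
      _ = μ * (1 + η ^ 2) * N / ℓ := by rw [hc]; ring
      _ ≤ (1 - δ / 2 + 3 * η) * N / L := by
        rw [div_le_div_iff₀ hℓ0 hL0]
        have h2 : μ * (1 + η ^ 2) ≤ (1 - δ / 2 + 3 * η) * (1 - η) := by
          rw [hμ]
          nlinarith
        calc μ * (1 + η ^ 2) * N * L ≤ (1 - δ / 2 + 3 * η) * (1 - η) * N * L := by gcongr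
          _ = (1 - δ / 2 + 3 * η) * N * ((1 - η) * L) := by ring
          _ ≤ (1 - δ / 2 + 3 * η) * N * ℓ := by
            apply mul_le_mul_of_nonneg_left hratio
            apply mul_nonneg _ hNpos.le
            linarith
  have hGcard : δ / 4 * N / L ≤ G.card := by
    have h2 : δ / 4 * N / L ≤ (1 - 2 * η) * N / L - (1 - δ / 2 + 3 * η) * N / L := by
      rw [← sub_div]
      apply div_le_div_of_nonneg_right _ hL0.le
      have h3 : δ / 4 ≤ (1 - 2 * η) - (1 - δ / 2 + 3 * η) := by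
        have : η = δ / 100 := hη
        linarith
      have h4 := mul_le_mul_of_nonneg_right h3 hNpos.le
      linarith
    linarith
  -- every element of G is a prime
  have hGp : ∀ g ∈ G, X ≤ g ∧ g + T ≤ N ∧ g.Prime := by
    intro g hg
    rw [hG, Finset.mem_filter, Finset.mem_Ioc] at hg
    refine ⟨hg.1.1.le, by omega, ?_⟩
    have h1 := hg.2 1 le_rfl hK01
    by_contra hnp
    have h2 : pc (g - 1) g = 0 := by
      have h3 := pc_succ (g - 1)
      rw [Nat.sub_add_cancel (by omega : 1 ≤ g), if_neg hnp] at h3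
      exact h3
    rw [h2] at h1
    push_cast at h1
    linarith
  -- second moment
  have hm := hmom N T hNN₁ (by rw [← hL]; linarith)
  have hCN : 0 < C * N := by positivity
  have hmm := moment_back G X N T hTX hGp (C * N) hCN hm
  have hbig : c1 * N ≤ ((T : ℝ) * G.card) ^ 2 / (C * N) := by
    rw [le_div_iff₀ hCN]
    have h1 : L / 2 * (δ / 4 * N / L) ≤ (T : ℝ) * G.card := by
      apply mul_le_mul hTL2 hGcard (by positivity) (by positivity)
    have h2 : L / 2 * (δ / 4 * N / L) = δ * N / 8 := by field_simp; ring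
    rw [h2] at h1
    calc c1 * N * (C * N) = (δ * N / 8) ^ 2 := by rw [hc1]; field_simp; ring
      _ ≤ ((T : ℝ) * G.card) ^ 2 := by gcongr
  set A := (Finset.Ico X N).filter (fun m => ∃ g ∈ G, g ≤ m ∧ m < g + T) with hA
  have hAcard : c1 * N ≤ A.card := hbig.trans hmm
  -- upper bound: the bad set
  set c' : ℝ := lam' / L with hc'
  have hc'0 : 0 < c' := by positivity
  set Bd := (Finset.Ioc (X - 1) (N - 1)).filter (fun n => ∃ H : ℕ, 1 ≤ H ∧ H ≤ K0 ∧
      c' * H ≤ pc (n - H) n) with hBd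
  have hBdcard : (Bd.card : ℝ) ≤ c1 / 2 * N := by
    have h1 := gb_upper c' hc'0 K0 (N - 1 - (X - 1)) (X - 1) (N - 1) rfl (by omega)
    rw [← hBd] at h1
    have h2 : (pc (X - 1 - K0) (N - 1) : ℝ) ≤ pc 0 N := by
      exact_mod_cast (pc_anti (Nat.zero_le _)).trans (pc_mono (by omega))
    have h3 := (hB₀ N (by omega) 0 (Nat.zero_le _)).2
    rw [← hL] at h3
    push_cast at h3
    have h4 : (pc 0 N : ℝ) * L ≤ 2 * N := by nlinarith
    have h5 : c' * Bd.card * L ≤ 2 * N :=
      (mul_le_mul_of_nonneg_right (h1.trans h2) hL0.le).trans h4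
    have h6 : c' * Bd.card * L = lam' * Bd.card := by rw [hc']; field_simp
    rw [h6, hlam', div_mul_eq_mul_div, div_le_iff₀ hc10] at h5
    linarith
  have hcard : c1 / 2 * N ≤ ((A \ Bd).card : ℝ) := by
    have h1 : (A.card : ℝ) ≤ (A \ Bd).card + Bd.card := by
      exact_mod_cast Finset.card_le_card_sdiff_add_card
    linarith
  refine hcard.trans (Nat.cast_le.2 (Finset.card_le_card ?_))
  intro m hm
  rw [Finset.mem_sdiff] at hm
  obtain ⟨hmA, hmB⟩ := hm
  rw [hA, Finset.mem_filter, Finset.mem_Ico] at hmA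
  obtain ⟨⟨hmX, hmN⟩, g, hg, hgm, hmg⟩ := hmA
  have hmB' : ∀ H : ℕ, 1 ≤ H → H ≤ K0 → (pc (m - H) m : ℝ) < c' * H := by
    intro H h1 h2
    by_contra hcon
    push Not at hcon
    apply hmB
    rw [hBd, Finset.mem_filter, Finset.mem_Ioc]
    exact ⟨⟨by omega, by omega⟩, H, h1, h2, hcon⟩
  rw [Finset.mem_filter, Finset.mem_range]
  refine ⟨hmN, fun x hx1 hx2 H hH1 hH2 => ?_⟩
  obtain ⟨hgX, hgN, hgp⟩ := hGp g hg
  have hmXr : (X : ℝ) ≤ m := by exact_mod_cast hmX
  have hm1N : (m : ℝ) + 1 ≤ N := by exact_mod_cast hmN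
  have hm3 : (3 : ℝ) ≤ m := hX3.trans hmXr
  have hx0 : 0 < x := by linarith
  have hlogm : ℓ ≤ Real.log m := Real.log_le_log (by linarith) hmXr
  have hlogm0 : 0 < Real.log m := lt_of_lt_of_le hℓ0 hlogm
  have hlogmx : Real.log m ≤ Real.log x := Real.log_le_log (by linarith) hx1.le
  have hlogx0 : 0 < Real.log x := lt_of_lt_of_le hlogm0 hlogmx
  have hlogxL : Real.log x ≤ L := Real.log_le_log hx0 (by linarith)
  have hT4 : (T : ℝ) + 1 ≤ δ / 2 * H := by
    have h1 : (T : ℝ) + 1 ≤ 4 * Real.log x := by nlinarith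
    have h2 : 8 / δ * Real.log x * (δ / 2) ≤ H * (δ / 2) := by gcongr
    have h3 : 8 / δ * Real.log x * (δ / 2) = 4 * Real.log x := by field_simp; ring
    linarith
  have hH0 : 0 < H := by
    by_contra hcon
    push Not at hcon
    nlinarith
  have hHT : (T : ℝ) + 1 ≤ H := by nlinarith
  set h : ℕ := ⌊H⌋₊ with hh
  have hhle : (h : ℝ) ≤ H := Nat.floor_le hH0.le
  have hhlt : H < h + 1 := Nat.lt_floor_add_one H
  have hTh : T ≤ h := by
    rw [hh]
    apply Nat.le_floor
    linarith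
  have hhm : h ≤ m := by
    have h1 : (h : ℝ) < m + 1 := by linarith
    have h2 : h < m + 1 := by exact_mod_cast h1
    omega
  obtain ⟨H', hH'⟩ : ∃ H' : ℕ, H' = h - T := ⟨_, rfl⟩
  have hH'r : (H' : ℝ) = h - T := by rw [hH']; exact Nat.cast_sub hTh
  have hH'ge : (1 - δ / 2) * H ≤ H' := by
    rw [hH'r]; linarith
  have hH'0 : (0 : ℝ) < H' := lt_of_lt_of_le (by positivity) hH'ge
  have hH'1 : 1 ≤ H' := by exact_mod_cast hH'0
  have hH'g : H' ≤ g := by omega
  have hgTm : (m : ℝ) + 1 ≤ g + T := by exact_mod_cast hmg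
  have hcbge : (pc (g - H') g : ℝ) ≤ cb x H := by
    exact_mod_cast cb_ge (H := H) hgm hx1 (by rw [hH'r]; linarith) hH'g
  constructor
  · -- lower bound
    rcases Nat.lt_or_ge K0 H' with hcase | hcase
    · have h1 := (hB₀ g (by omega) (g - H') (by omega)).1
      have h2 : ((g - H' : ℕ) : ℝ) = g - H' := Nat.cast_sub hH'g
      rw [h2] at h1
      have h3 : η ^ 2 * N < H' := (Nat.floor_lt (by positivity)).mp hcase
      have hgr : (g : ℝ) ≤ m := by exact_mod_cast hgm
      have hg3 : (3 : ℝ) ≤ g := hX3.trans (by exact_mod_cast hgX)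
      have h4 : (pc (g - H') g : ℝ) * Real.log g ≤ cb x H * Real.log x := by
        apply mul_le_mul hcbge _ (Real.log_nonneg (by linarith)) (Nat.cast_nonneg _)
        exact Real.log_le_log (by linarith) (by linarith)
      rw [div_le_iff₀ hlogx0]
      refine le_trans ?_ h4
      refine le_trans ?_ h1
      have h5 : 9 * e * g ≤ 9 * e * N := by
        apply mul_le_mul_of_nonneg_left _ (by positivity)
        linarith
      have h6 : 9 * e * N = 9 * δ / 100 * (η ^ 2 * N) := by rw [he]; ring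
      have h7 : 9 * δ / 100 * (η ^ 2 * N) ≤ 9 * δ / 100 * H' := by gcongr
      have h8 : (1 - δ) * H ≤ (1 - 9 * δ / 100) * ((1 - δ / 2) * H) := by nlinarith
      have h9 : (1 - 9 * δ / 100) * ((1 - δ / 2) * H) ≤ (1 - 9 * δ / 100) * H' := by
        apply mul_le_mul_of_nonneg_left hH'ge
        linarith
      linarith
    · rw [hG, Finset.mem_filter] at hg
      have h1 := hg.2 H' hH'1 hcase
      refine le_trans ?_ (h1.trans hcbge)
      rw [hc, div_mul_eq_mul_div, div_le_div_iff₀ hlogx0 hℓ0]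
      have h3 : (1 - δ) * H ≤ μ * H' := by
        have h4 : μ * ((1 - δ / 2) * H) ≤ μ * H' := by
          apply mul_le_mul_of_nonneg_left hH'ge hμ0.le
        have h5 : (1 - δ) * H ≤ μ * ((1 - δ / 2) * H) := by
          rw [hμ]
          nlinarith
        linarith
      calc (1 - δ) * H * ℓ ≤ μ * H' * ℓ := by gcongr
        _ ≤ μ * H' * Real.log x := by
          apply mul_le_mul_of_nonneg_left (by linarith)
          positivity
  · -- upper bound
    have h1 : (cb x H : ℝ) ≤ pc (m - (h + 1)) m := by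
      exact_mod_cast cb_le hx1 hx2 (by push_cast; exact hhlt)
    refine h1.trans ?_
    have hh1 : ((h + 1 : ℕ) : ℝ) ≤ 2 * H := by push_cast; linarith
    rcases Nat.lt_or_ge K0 (h + 1) with hcase | hcase
    · have h2 := (hB₀ m (by omega) (m - (h + 1)) (by omega)).2
      have h3 : η ^ 2 * N < ((h + 1 : ℕ) : ℝ) := (Nat.floor_lt (by positivity)).mp hcase
      have h4 : (m : ℝ) - ((m - (h + 1) : ℕ) : ℝ) ≤ ((h + 1 : ℕ) : ℝ) := by
        have h5 : m ≤ (m - (h + 1)) + (h + 1) := by omega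
        have h6 : (m : ℝ) ≤ ((m - (h + 1) : ℕ) : ℝ) + ((h + 1 : ℕ) : ℝ) := by exact_mod_cast h5
        linarith
      have h5 : 3 * e * m ≤ ((h + 1 : ℕ) : ℝ) := by
        have h6 : 3 * e * m ≤ 3 * (η ^ 2 / 100) * N := by
          have : (m : ℝ) ≤ N := by linarith
          gcongr
        have : 0 ≤ η ^ 2 * N := by positivity
        linarith
      have h6 : (pc (m - (h + 1)) m : ℝ) * Real.log m ≤ 4 * H := by linarith
      rw [le_div_iff₀ hlogx0]
      have h7 : Real.log x ≤ 2 * Real.log m := by linarith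
      calc (pc (m - (h + 1)) m : ℝ) * Real.log x ≤ (pc (m - (h + 1)) m : ℝ) * (2 * Real.log m) := by
            gcongr
        _ = 2 * ((pc (m - (h + 1)) m : ℝ) * Real.log m) := by ring
        _ ≤ 2 * (4 * H) := by gcongr
        _ ≤ (2 * lam' + 8) * H := by
          have h9 : 0 ≤ 2 * lam' * H := by positivity
          linarith
    · refine (hmB' (h + 1) (by omega) hcase).le.trans ?_
      rw [hc', div_mul_eq_mul_div]
      calc lam' * ((h + 1 : ℕ) : ℝ) / L ≤ lam' * (2 * H) / Real.log x := by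
            apply div_le_div₀ (by positivity) (by gcongr) hlogx0 hlogxL
        _ ≤ (2 * lam' + 8) * H / Real.log x := by
            apply div_le_div_of_nonneg_right _ hlogx0.le
            have h9 : 0 ≤ 8 * H := by positivity
            linarith

end Pool.Agent.H622R3.SP
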