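import Mathlib

/-! A metric lemma: a set of integers of positive lower density contains `⌊α ^ b n⌋` for a set of
`n` of positive upper density, for almost all `α > 1` and every sequence `b n → ∞`. -/

set_option autoImplicit false

open Filter Topology MeasureTheory

namespace Pool.Agent.H622R3.SP

open Classical in
/-- partial summation -/
lemma abel_sum (S : Set ℕ) (c : ℝ) (hc0 : 0 < c) (N₀ : ℕ)
    (hS : ∀ N : ℕ, N₀ ≤ N → c * N ≤ (((Finset.range N).filter (fun m => m ∈ S)).card : ℝ))
    (A : ℕ) (hA : N₀ ≤ A) (hA1 : 1 ≤ A) : ∀ B : ℕ, A ≤ B →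
    (((Finset.range B).filter (fun m => m ∈ S)).card : ℝ) / B -
      (((Finset.range A).filter (fun m => m ∈ S)).card : ℝ) / A +
      c * (Real.log (B + 1) - Real.log (A + 1)) ≤
    ∑ m ∈ (Finset.Ico A B).filter (fun m => m ∈ S), 1 / ((m : ℝ) + 1) := by
  intro B hB
  induction B, hB using Nat.le_induction with
  | base => simp
  | succ B hB ih =>
    have hB1 : (1 : ℝ) ≤ B := by exact_mod_cast hA1.trans hB
    have hB0 : (0 : ℝ) < B := by linarith
    set a : ℝ := (((Finset.range B).filter (fun m => m ∈ S)).card : ℝ) with ha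
    have haB : c * B ≤ a := hS B (hA.trans hB)
    have hlog : Real.log ((B : ℝ) + 1 + 1) ≤ Real.log (B + 1) + 1 / (B + 1) := by
      have h1 : Real.log (((B : ℝ) + 1 + 1) / (B + 1)) ≤ ((B : ℝ) + 1 + 1) / (B + 1) - 1 :=
        Real.log_le_sub_one_of_pos (by positivity)
      rw [Real.log_div (by positivity) (by positivity)] at h1
      have h2 : ((B : ℝ) + 1 + 1) / (B + 1) - 1 = 1 / (B + 1) := by field_simp; ring
      linarith
    have hkey : a / (B + 1) + c / (B + 1) ≤ a / B := by
      rw [← add_div, div_le_div_iff₀ (by positivity) hB0]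
      nlinarith
    have hclog : c * Real.log ((B : ℝ) + 1 + 1) ≤ c * Real.log (B + 1) + c / (B + 1) := by
      have := mul_le_mul_of_nonneg_left hlog hc0.le
      rw [mul_add, mul_one_div] at this
      exact this
    by_cases hBS : B ∈ S
    · have h1 : (Finset.range (B + 1)).filter (fun m => m ∈ S) =
          insert B ((Finset.range B).filter (fun m => m ∈ S)) := by
        rw [Finset.range_add_one, Finset.filter_insert, if_pos hBS]
      have h2 : (Finset.Ico A (B + 1)).filter (fun m => m ∈ S) =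
          insert B ((Finset.Ico A B).filter (fun m => m ∈ S)) := by
        rw [← Finset.insert_Ico_right_eq_Ico_add_one hB, Finset.filter_insert, if_pos hBS]
      rw [h1, h2, Finset.card_insert_of_notMem (by simp), Finset.sum_insert (by simp)]
      push_cast
      rw [← ha, add_div]
      linarith
    · have h1 : (Finset.range (B + 1)).filter (fun m => m ∈ S) =
          ((Finset.range B).filter (fun m => m ∈ S)) := by
        rw [Finset.range_add_one, Finset.filter_insert, if_neg hBS]
      have h2 : (Finset.Ico A (B + 1)).filter (fun m => m ∈ S) =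
          ((Finset.Ico A B).filter (fun m => m ∈ S)) := by
        rw [← Finset.insert_Ico_right_eq_Ico_add_one hB, Finset.filter_insert, if_neg hBS]
      rw [h1, h2]
      push_cast
      rw [← ha]
      linarith

/-- the event at the exponent `b` -/
def Ev (S : Set ℕ) (b : ℝ) : Set ℝ :=
  {β : ℝ | ∃ m ∈ S, (m : ℝ) < Real.exp (β * b) ∧ Real.exp (β * b) < m + 1}

lemma Ev_open (S : Set ℕ) (b : ℝ) : IsOpen (Ev S b) := by
  have h : Ev S b = ⋃ m ∈ S, {β : ℝ | (m : ℝ) < Real.exp (β * b)} ∩
      {β : ℝ | Real.exp (β * b) < m + 1} := by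
    ext β
    simp only [Ev, Set.mem_ofPred_eq, Set.mem_iUnion, Set.mem_inter_iff, exists_prop]
  rw [h]
  refine isOpen_biUnion fun m _ => IsOpen.inter ?_ ?_
  · exact isOpen_lt continuous_const (by fun_prop)
  · exact isOpen_lt (by fun_prop) continuous_const

open Classical in
lemma local_density (S : Set ℕ) (c : ℝ) (hc0 : 0 < c) (hc1 : c ≤ 1) (N₀ : ℕ)
    (hS : ∀ N : ℕ, N₀ ≤ N → c * N ≤ (((Finset.range N).filter (fun m => m ∈ S)).card : ℝ))
    (u v b : ℝ) (hb0 : 0 < b) (hb1 : 1 ≤ u * b)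
    (hb2 : 2 ≤ (v - u) * b) (hb3 : (N₀ : ℝ) ≤ Real.exp (u * b)) :
    ENNReal.ofReal (c * (v - u) - 3 / b) ≤ volume (Set.Icc u v ∩ Ev S b) := by
  have huv : u < v := by
    by_contra hcon
    push Not at hcon
    nlinarith
  set A : ℕ := ⌈Real.exp (u * b)⌉₊ with hA
  set B : ℕ := ⌊Real.exp (v * b)⌋₊ with hB
  have he1 : 1 ≤ Real.exp (u * b) := Real.one_le_exp (by linarith)
  have hev : 3 * Real.exp (u * b) ≤ Real.exp (v * b) := by
    have h1 : Real.exp (v * b) = Real.exp ((v - u) * b) * Real.exp (u * b) := by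
      rw [← Real.exp_add]; congr 1; ring
    rw [h1]
    have h2 : 3 ≤ Real.exp ((v - u) * b) := by
      have := Real.add_one_le_exp ((v - u) * b)
      linarith
    gcongr
  have hAr : Real.exp (u * b) ≤ A := Nat.le_ceil _
  have hAr2 : (A : ℝ) < Real.exp (u * b) + 1 := Nat.ceil_lt_add_one (by positivity)
  have hBr : (B : ℝ) ≤ Real.exp (v * b) := Nat.floor_le (by positivity)
  have hBr2 : Real.exp (v * b) < B + 1 := Nat.lt_floor_add_one _
  have hA1 : 1 ≤ A := by
    have : (1 : ℝ) ≤ A := he1.trans hAr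
    exact_mod_cast this
  have hAN : N₀ ≤ A := by
    have : (N₀ : ℝ) ≤ A := hb3.trans hAr
    exact_mod_cast this
  have hAB : A ≤ B := by
    have : (A : ℝ) < B + 1 := by linarith
    have h2 : A < B + 1 := by exact_mod_cast this
    omega
  have hsum := abel_sum S c hc0 N₀ hS A hAN hA1 B hAB
  set T := (Finset.Ico A B).filter (fun m => m ∈ S) with hT
  have h1 : (((Finset.range A).filter (fun m => m ∈ S)).card : ℝ) / A ≤ 1 := by
    have hA0 : (0 : ℝ) < A := by exact_mod_cast hA1
    rw [div_le_one hA0]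
    have := Finset.card_filter_le (Finset.range A) (fun m => m ∈ S)
    rw [Finset.card_range] at this
    exact_mod_cast this
  have h2 : 0 ≤ (((Finset.range B).filter (fun m => m ∈ S)).card : ℝ) / B := by positivity
  have h3 : v * b ≤ Real.log (B + 1) := by
    rw [Real.le_log_iff_exp_le (by positivity)]
    exact hBr2.le
  have h4 : Real.log (A + 1) ≤ u * b + 2 := by
    rw [Real.log_le_iff_le_exp (by positivity), Real.exp_add]
    have h5 : 3 ≤ Real.exp 2 := by
      have := Real.add_one_le_exp (2 : ℝ)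
      linarith
    nlinarith
  have h5 : c * ((v - u) * b) - 3 ≤ ∑ m ∈ T, 1 / ((m : ℝ) + 1) := by
    have h6 : c * ((v - u) * b - 2) ≤ c * (Real.log (B + 1) - Real.log (A + 1)) := by
      apply mul_le_mul_of_nonneg_left _ hc0.le
      linarith
    have h7 : c * ((v - u) * b) - 2 ≤ c * ((v - u) * b - 2) := by nlinarith
    linarith
  -- the intervals
  let J : ℕ → Set ℝ := fun m => Set.Ioo (Real.log m / b) (Real.log (m + 1) / b)
  have hsub : (⋃ m ∈ T, J m) ⊆ Set.Icc u v ∩ Ev S b := by
    intro β hβ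
    simp only [Set.mem_iUnion] at hβ
    obtain ⟨m, hm, hβ1, hβ2⟩ := hβ
    rw [hT, Finset.mem_filter, Finset.mem_Ico] at hm
    obtain ⟨⟨hmA, hmB⟩, hmS⟩ := hm
    have hm0 : (0 : ℝ) < m := by
      have : 1 ≤ m := hA1.trans hmA
      exact_mod_cast this
    rw [div_lt_iff₀ hb0, Real.log_lt_iff_lt_exp hm0] at hβ1
    rw [lt_div_iff₀ hb0, Real.lt_log_iff_exp_lt (by positivity)] at hβ2
    refine ⟨⟨?_, ?_⟩, m, hmS, hβ1, hβ2⟩
    · have h6 : Real.exp (u * b) < Real.exp (β * b) := by
        have : (A : ℝ) ≤ m := by exact_mod_cast hmA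
        linarith
      rw [Real.exp_lt_exp] at h6
      exact (lt_of_mul_lt_mul_right h6 hb0.le).le
    · have h6 : Real.exp (β * b) < Real.exp (v * b) := by
        have : (m : ℝ) + 1 ≤ B := by exact_mod_cast hmB
        linarith
      rw [Real.exp_lt_exp] at h6
      exact (lt_of_mul_lt_mul_right h6 hb0.le).le
  have hdisj : Set.PairwiseDisjoint (T : Set ℕ) J := by
    have key : ∀ m m' : ℕ, m < m' → Disjoint (J m) (J m') := by
      intro m m' hlt
      rw [Set.disjoint_left]
      rintro β ⟨-, h6⟩ ⟨h7, -⟩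
      have h8 : Real.log ((m : ℝ) + 1) ≤ Real.log m' := by
        apply Real.log_le_log (by positivity)
        exact_mod_cast hlt
      have h9 : Real.log ((m : ℝ) + 1) / b ≤ Real.log m' / b := by gcongr
      linarith
    intro m _ m' _ hne
    rcases lt_or_gt_of_ne hne with h | h
    · exact key m m' h
    · exact (key m' m h).symm
  refine le_trans ?_ (measure_mono hsub)
  rw [measure_biUnion_finset hdisj (fun m _ => measurableSet_Ioo)]
  have hlen : ∀ m ∈ T, ENNReal.ofReal (1 / ((m : ℝ) + 1) / b) ≤ volume (J m) := by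
    intro m hm
    rw [hT, Finset.mem_filter, Finset.mem_Ico] at hm
    have hm0 : (0 : ℝ) < m := by
      have : 1 ≤ m := hA1.trans hm.1.1
      exact_mod_cast this
    simp only [J, Real.volume_Ioo]
    apply ENNReal.ofReal_le_ofReal
    rw [← sub_div]
    apply div_le_div_of_nonneg_right _ hb0.le
    have h6 := Real.one_sub_inv_le_log_of_pos (show 0 < ((m : ℝ) + 1) / m by positivity)
    rw [Real.log_div (by positivity) hm0.ne'] at h6
    refine le_trans (le_of_eq ?_) h6
    rw [inv_div]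
    field_simp
    ring
  refine le_trans ?_ (Finset.sum_le_sum hlen)
  rw [← ENNReal.ofReal_sum_of_nonneg (fun m _ => by positivity)]
  apply ENNReal.ofReal_le_ofReal
  rw [← Finset.sum_div, le_div_iff₀ hb0]
  have h6 : (c * (v - u) - 3 / b) * b = c * ((v - u) * b) - 3 := by field_simp
  rw [h6]
  exact h5

/-- number of `n < N` with the event -/
noncomputable def ff (S : Set ℕ) (b : ℕ → ℝ) (N : ℕ) (β : ℝ) : ℝ :=
  ∑ n ∈ Finset.range N, (Ev S (b n)).indicator 1 β

lemma ff_meas (S : Set ℕ) (b : ℕ → ℝ) (N : ℕ) : Measurable (ff S b N) := by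
  unfold ff
  refine Finset.measurable_fun_sum _ fun n _ => ?_
  exact measurable_one.indicator (Ev_open S (b n)).measurableSet

lemma ff_le (S : Set ℕ) (b : ℕ → ℝ) (N : ℕ) (β : ℝ) : ff S b N β ≤ N := by
  unfold ff
  calc ∑ n ∈ Finset.range N, (Ev S (b n)).indicator 1 β ≤ ∑ _n ∈ Finset.range N, (1 : ℝ) := by
        refine Finset.sum_le_sum fun n _ => ?_
        exact Set.indicator_le_self' (fun _ _ => zero_le_one) β |>.trans (by simp)
    _ = N := by simp

lemma ff_integral (S : Set ℕ) (b : ℕ → ℝ) (N : ℕ) (I : Set ℝ) (hI : volume I ≠ ⊤) :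
    ∫ β in I, ff S b N β = ∑ n ∈ Finset.range N, volume.real (Ev S (b n) ∩ I) := by
  unfold ff
  have : IsFiniteMeasure (volume.restrict I) := ⟨by
    rw [Measure.restrict_apply_univ]
    exact lt_top_iff_ne_top.2 hI⟩
  rw [integral_finsetSum]
  · refine Finset.sum_congr rfl fun n _ => ?_
    rw [integral_indicator_one (Ev_open S (b n)).measurableSet]
    unfold Measure.real
    rw [Measure.restrict_apply (Ev_open S (b n)).measurableSet]
  · intro n _
    exact (integrable_const (1 : ℝ)).indicator (Ev_open S (b n)).measurableSet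

open Classical in
lemma Z_null (S : Set ℕ) (c : ℝ) (hc0 : 0 < c) (hc1 : c ≤ 1) (N₀ : ℕ)
    (hS : ∀ N : ℕ, N₀ ≤ N → c * N ≤ (((Finset.range N).filter (fun m => m ∈ S)).card : ℝ))
    (b : ℕ → ℝ) (hb : Tendsto b atTop atTop) (M : ℕ) :
    volume {β : ℝ | 0 < β ∧ ∀ N : ℕ, M ≤ N → ff S b N β ≤ c / 2 * N} = 0 := by
  set Z : Set ℝ := {β : ℝ | 0 < β ∧ ∀ N : ℕ, M ≤ N → ff S b N β ≤ c / 2 * N} with hZ
  by_contra hcon
  have hZm : MeasurableSet Z := by
    have h1 : Z = Set.Ioi 0 ∩ ⋂ N : ℕ, ⋂ _ : M ≤ N, {β : ℝ | ff S b N β ≤ c / 2 * N} := by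
      ext β
      simp only [hZ, Set.mem_ofPred_eq, Set.mem_inter_iff, Set.mem_Ioi, Set.mem_iInter]
    rw [h1]
    refine measurableSet_Ioi.inter (MeasurableSet.iInter fun N => MeasurableSet.iInter fun _ => ?_)
    exact measurableSet_le (ff_meas S b N) measurable_const
  have hne : (ae (volume.restrict Z)).NeBot := by
    rw [ae_neBot]
    intro h
    rw [Measure.restrict_eq_zero] at h
    exact hcon h
  obtain ⟨β₀, hβ₀, hβ₀Z⟩ := ((Besicovitch.ae_tendsto_measure_inter_div volume Z).and
    (ae_restrict_mem hZm)).exists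
  have hβpos : 0 < β₀ := hβ₀Z.1
  set ε : ℝ := c / 8 with hε
  have hε0 : 0 < ε := by positivity
  have hε1 : ε < 1 := by rw [hε]; linarith
  have ev1 : ∀ᶠ r : ℝ in 𝓝[>] 0, ENNReal.ofReal (1 - ε) <
      volume (Z ∩ Metric.closedBall β₀ r) / volume (Metric.closedBall β₀ r) := by
    apply hβ₀.eventually_const_lt
    rw [ENNReal.ofReal_lt_one]
    linarith
  have ev2 : ∀ᶠ r : ℝ in 𝓝[>] 0, r < β₀ := by
    apply eventually_nhdsWithin_of_eventually_nhds
    exact eventually_lt_nhds hβpos
  have ev3 : ∀ᶠ r : ℝ in 𝓝[>] (0 : ℝ), 0 < r := eventually_mem_nhdsWithin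
  obtain ⟨r, ⟨hr1, hr2⟩, hr0⟩ := ((ev1.and ev2).and ev3).exists
  rw [Real.closedBall_eq_Icc] at hr1
  set u : ℝ := β₀ - r with hu
  set v : ℝ := β₀ + r with hv
  have hu0 : 0 < u := by rw [hu]; linarith
  have hvu : v - u = 2 * r := by rw [hu, hv]; ring
  have hvolI : volume (Set.Icc u v) = ENNReal.ofReal (2 * r) := by rw [Real.volume_Icc, hvu]
  have hIr : volume.real (Set.Icc u v) = 2 * r := by
    unfold Measure.real
    rw [hvolI, ENNReal.toReal_ofReal (by positivity)]
  have hInt : volume (Set.Icc u v) ≠ ⊤ := by rw [hvolI]; exact ENNReal.ofReal_ne_top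
  -- measure of the complement
  have hcomp : volume.real (Set.Icc u v \ Z) ≤ ε * (2 * r) := by
    have h1 : ENNReal.ofReal (1 - ε) * volume (Set.Icc u v) ≤ volume (Z ∩ Set.Icc u v) := by
      have h2 := hr1.le
      rwa [ENNReal.le_div_iff_mul_le (Or.inl (by rw [hvolI]; simp; linarith)) (Or.inl hInt)] at h2
    have h2 : (1 - ε) * (2 * r) ≤ volume.real (Z ∩ Set.Icc u v) := by
      unfold Measure.real
      rw [hvolI, ← ENNReal.ofReal_mul (by linarith)] at h1
      exact (ENNReal.ofReal_le_iff_le_toReal (ne_top_of_le_ne_top hInt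
        (measure_mono Set.inter_subset_right))).1 h1
    have h3 := measureReal_inter_add_sdiff (μ := volume) (s := Set.Icc u v) hZm hInt
    rw [Set.inter_comm, hIr] at h3
    linarith
  -- lower bound
  have ev4 : ∀ᶠ n : ℕ in atTop, 1 / u + 2 / (v - u) + (Real.log (N₀ + 1)) / u + 3 / (ε * (2 * r)) + 1
      ≤ b n := hb.eventually_ge_atTop _
  obtain ⟨n₀, hn₀⟩ := ev4.exists_forall_of_atTop
  have hloc : ∀ n : ℕ, n₀ ≤ n → (c - ε) * (2 * r) ≤ volume.real (Ev S (b n) ∩ Set.Icc u v) := by
    intro n hn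
    have h1 := hn₀ n hn
    have hvu0 : 0 < v - u := by rw [hvu]; linarith
    have p1 : 0 < 1 / u := by positivity
    have p2 : 0 < 2 / (v - u) := by positivity
    have p3 : 0 ≤ Real.log ((N₀ : ℝ) + 1) / u := by
      apply div_nonneg (Real.log_nonneg _) hu0.le
      have : (0 : ℝ) ≤ N₀ := Nat.cast_nonneg _
      linarith
    have p4 : 0 < 3 / (ε * (2 * r)) := by positivity
    have hbn0 : 0 < b n := by linarith
    have q1 : 1 ≤ u * b n := by
      have : 1 / u ≤ b n := by linarith
      rwa [div_le_iff₀ hu0, mul_comm] at this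
    have q2 : 2 ≤ (v - u) * b n := by
      have : 2 / (v - u) ≤ b n := by linarith
      rwa [div_le_iff₀ hvu0, mul_comm] at this
    have q3 : (N₀ : ℝ) ≤ Real.exp (u * b n) := by
      have h2 : Real.log ((N₀ : ℝ) + 1) / u ≤ b n := by linarith
      rw [div_le_iff₀ hu0, mul_comm, Real.log_le_iff_le_exp (by positivity)] at h2
      linarith
    have q4 : 3 / b n ≤ ε * (2 * r) := by
      have h2 : 3 / (ε * (2 * r)) ≤ b n := by linarith
      rw [div_le_iff₀ (by positivity)] at h2 ⊢
      linarith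
    have h2 := local_density S c hc0 hc1 N₀ hS u v (b n) hbn0 q1 q2 q3
    rw [Set.inter_comm] at h2
    have h3 := (ENNReal.ofReal_le_iff_le_toReal (ne_top_of_le_ne_top hInt
        (measure_mono Set.inter_subset_right))).1 h2
    unfold Measure.real
    refine le_trans ?_ h3
    rw [hvu]
    linarith
  -- the integral
  have hfin : IsFiniteMeasure (volume.restrict (Set.Icc u v)) := ⟨by
    rw [Measure.restrict_apply_univ]
    exact lt_top_iff_ne_top.2 hInt⟩
  have hmain : ∀ N : ℕ, n₀ ≤ N → M ≤ N →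
      ((N : ℝ) - n₀) * ((c - ε) * (2 * r)) ≤ (c / 2 + ε) * N * (2 * r) := by
    intro N hN1 hN2
    have h1 : ((N : ℝ) - n₀) * ((c - ε) * (2 * r)) ≤ ∫ β in Set.Icc u v, ff S b N β := by
      rw [ff_integral S b N _ hInt, Finset.range_eq_Ico,
        ← Finset.sum_Ico_consecutive _ (Nat.zero_le n₀) hN1]
      have h2 : ((N : ℝ) - n₀) * ((c - ε) * (2 * r)) ≤
          ∑ n ∈ Finset.Ico n₀ N, volume.real (Ev S (b n) ∩ Set.Icc u v) := by
        calc ((N : ℝ) - n₀) * ((c - ε) * (2 * r)) =
            ∑ _n ∈ Finset.Ico n₀ N, (c - ε) * (2 * r) := by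
              rw [Finset.sum_const, Nat.card_Ico, nsmul_eq_mul, Nat.cast_sub hN1]
          _ ≤ _ := Finset.sum_le_sum fun n hn => hloc n (Finset.mem_Ico.1 hn).1
      have h3 : 0 ≤ ∑ n ∈ Finset.Ico 0 n₀, volume.real (Ev S (b n) ∩ Set.Icc u v) :=
        Finset.sum_nonneg fun _ _ => measureReal_nonneg
      linarith
    have h2 : ∫ β in Set.Icc u v, ff S b N β ≤
        ∫ β in Set.Icc u v, (c / 2 * N + Zᶜ.indicator (fun _ => (N : ℝ)) β) := by
      apply integral_mono
      · unfold ff
        refine integrable_finsetSum _ fun n _ => ?_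
        exact (integrable_const (1 : ℝ)).indicator (Ev_open S (b n)).measurableSet
      · exact (integrable_const _).add ((integrable_const _).indicator hZm.compl)
      · intro β
        simp only
        by_cases hβ : β ∈ Z
        · rw [Set.indicator_of_notMem (by simpa using hβ), add_zero]
          exact hβ.2 N hN2
        · rw [Set.indicator_of_mem (by simpa using hβ)]
          have h3 := ff_le S b N β
          have h4 : 0 ≤ c / 2 * (N : ℝ) := by positivity
          linarith
    have h3 : ∫ β in Set.Icc u v, (c / 2 * N + Zᶜ.indicator (fun _ => (N : ℝ)) β) =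
        c / 2 * N * (2 * r) + N * volume.real (Set.Icc u v \ Z) := by
      rw [integral_add (integrable_const _) ((integrable_const _).indicator hZm.compl),
        integral_const, integral_indicator_const _ hZm.compl]
      unfold Measure.real
      rw [Measure.restrict_apply_univ, Measure.restrict_apply hZm.compl, hvolI,
        ENNReal.toReal_ofReal (by positivity), smul_eq_mul, smul_eq_mul, Set.inter_comm,
        ← Set.sdiff_eq]
      ring
    have h4 : (N : ℝ) * volume.real (Set.Icc u v \ Z) ≤ N * (ε * (2 * r)) :=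
      mul_le_mul_of_nonneg_left hcomp (Nat.cast_nonneg _)
    calc _ ≤ _ := h1
      _ ≤ _ := h2
      _ = _ := h3
      _ ≤ c / 2 * N * (2 * r) + N * (ε * (2 * r)) := by linarith
      _ = _ := by ring
  have hfinal := hmain (4 * n₀ + M + 1) (by omega) (by omega)
  push_cast at hfinal
  have hn₀0 : (0 : ℝ) ≤ n₀ := Nat.cast_nonneg _
  have hM0 : (0 : ℝ) ≤ M := Nat.cast_nonneg _
  have h1 : ((4 * n₀ + M + 1 : ℝ) - n₀) * (c - ε) ≤ (c / 2 + ε) * (4 * n₀ + M + 1) := by
    have h2 : (((4 * n₀ + M + 1 : ℝ) - n₀) * (c - ε)) * (2 * r) ≤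
        ((c / 2 + ε) * (4 * n₀ + M + 1)) * (2 * r) := by linarith
    exact le_of_mul_le_mul_right h2 (by positivity)
  rw [hε] at h1
  nlinarith

open Classical in
/-- for almost all `α > 1` and every `b n → ∞` the event has positive upper density -/
theorem metric (S : Set ℕ) (c : ℝ) (hc0 : 0 < c)
    (hS : ∀ᶠ N : ℕ in atTop, c * N ≤ (((Finset.range N).filter (fun m => m ∈ S)).card : ℝ))
    (b : ℕ → ℝ) (hb : Tendsto b atTop atTop) :
    ∀ᵐ α : ℝ, 1 < α → ∃ᶠ N : ℕ in atTop, c / 2 * N ≤
      (((Finset.range N).filter (fun n : ℕ => ∃ m ∈ S, (m : ℝ) < α ^ b n ∧ α ^ b n < m + 1)).card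
        : ℝ) := by
  obtain ⟨N₀, hN₀⟩ := hS.exists_forall_of_atTop
  have hc1 : c ≤ 1 := by
    have h1 := hN₀ (N₀ + 1) (by omega)
    have h2 := Finset.card_filter_le (Finset.range (N₀ + 1)) (fun m => m ∈ S)
    rw [Finset.card_range] at h2
    have h3 : c * ((N₀ + 1 : ℕ) : ℝ) ≤ ((N₀ + 1 : ℕ) : ℝ) := h1.trans (by exact_mod_cast h2)
    have h4 : (0 : ℝ) < ((N₀ + 1 : ℕ) : ℝ) := by positivity
    by_contra hcon
    push Not at hcon
    nlinarith
  -- the exceptional set in the variable `β`
  let W : Set ℝ := ⋃ M : ℕ, {β : ℝ | 0 < β ∧ ∀ N : ℕ, M ≤ N → ff S b N β ≤ c / 2 * N}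
  have hW : volume W = 0 := measure_iUnion_null fun M => Z_null S c hc0 hc1 N₀ hN₀ b hb M
  have hWe : volume (Real.exp '' W) = 0 :=
    addHaar_image_eq_zero_of_differentiableOn_of_addHaar_eq_zero volume
      Real.differentiable_exp.differentiableOn hW
  have hae : ∀ᵐ α : ℝ, α ∉ Real.exp '' W := measure_eq_zero_iff_ae_notMem.1 hWe
  filter_upwards [hae] with α hα hα1
  by_contra hcon
  rw [Filter.not_frequently] at hcon
  obtain ⟨M, hM⟩ := hcon.exists_forall_of_atTop
  have hα0 : 0 < α := by linarith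
  apply hα
  refine ⟨Real.log α, ?_, Real.exp_log hα0⟩
  simp only [W, Set.mem_iUnion]
  refine ⟨M, Real.log_pos hα1, fun N hN => ?_⟩
  have h1 := hM N hN
  push Not at h1
  refine le_of_eq_of_le ?_ h1.le
  unfold ff
  rw [Finset.card_filter]
  push_cast
  refine Finset.sum_congr rfl fun n _ => ?_
  have h2 : Real.exp (Real.log α * b n) = α ^ b n := (Real.rpow_def_of_pos hα0 _).symm
  unfold Ev
  rw [Set.indicator_apply]
  simp only [Set.mem_ofPred_eq, h2, Pi.one_apply]

end Pool.Agent.H622R3.SP
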