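import Mathlib
import Pool.Agent.H749R6.CM.Pig
import Pool.Agent.H438R2.DL.App2

/-! Multiples of almost every real number and an arbitrary set of integers of positive lower
density (the argument of `Pool.Agent.H749R6.CM.Main`, for arbitrary sets). -/

set_option autoImplicit false

namespace Pool.Agent.H622R3.SP

open Finset MeasureTheory Filter Topology Pool.Agent.H749R6.CM

open Classical in
theorem mult (S : Set ℕ) (c₀ : ℝ) (hc₀ : 0 < c₀)
    (hS : ∀ᶠ N : ℕ in atTop, c₀ * N ≤ (((Finset.range N).filter (fun m => m ∈ S)).card : ℝ))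
    (δ : ℝ) (hδ : 0 < δ) (hδ1 : δ < 1) : ∃ c κ : ℝ, 0 < c ∧ 0 < κ ∧
      ∃ Y₀ : ℝ, ∀ Y : ℝ, Y₀ ≤ Y →
        ∃ E : Set ℝ, MeasurableSet E ∧ volume E ≤ ENNReal.ofReal (Y ^ (1 - κ)) ∧
        ∀ x : ℝ, Y ≤ x → x ≤ 2 * Y → x ∉ E →
          c * Y ^ δ ≤ ({k : ℕ | (k : ℝ) ≤ Y ^ δ ∧ ∃ m ∈ S, (m : ℝ) < k * x ∧ k * x < m + 1}.ncard
            : ℝ) := by
  classical
  obtain ⟨κ₁, hκ₁, Xp, hP⟩ := Pool.Agent.H438R2.DL.pairs_asymp (δ / 4) (by linarith) (by linarith)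
  obtain ⟨N₀, hN₀⟩ := hS.exists_forall_of_atTop
  set c₁ : ℝ := min c₀ 1 with hc₁d
  have hc₁ : 0 < c₁ := lt_min hc₀ one_pos
  have hc₁1 : c₁ ≤ 1 := min_le_right _ _
  have hc₁0 : c₁ ≤ c₀ := min_le_left _ _
  obtain ⟨I, hI⟩ := pow_unbounded_of_one_lt (8 / c₁) (by norm_num : (1 : ℝ) < 2)
  have hI0 : 0 < I := by
    rcases Nat.eq_zero_or_pos I with h | h
    · exfalso
      rw [h, pow_zero, div_lt_one hc₁] at hI
      linarith
    · exact h
  have hIR : (0 : ℝ) < I := by exact_mod_cast hI0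
  refine ⟨c₁ / (128 * I), κ₁, by positivity, hκ₁, ?_⟩
  have ev1 : ∀ᶠ Y : ℝ in atTop, 32 / c₁ ≤ Y ^ (δ / 2) :=
    (tendsto_rpow_atTop (by positivity)).eventually_ge_atTop _
  have ev2 : ∀ᶠ Y : ℝ in atTop, 2 ^ I * (8 * I) / c₁ ≤ Y ^ κ₁ :=
    (tendsto_rpow_atTop hκ₁).eventually_ge_atTop _
  obtain ⟨Y₀, hY₀⟩ := (((ev1.and ev2).and (eventually_ge_atTop (8 / c₁))).and
    ((eventually_ge_atTop ((N₀ + Xp + 8 : ℕ) : ℝ)))).exists_forall_of_atTop
  refine ⟨Y₀, fun Y hY => ?_⟩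
  obtain ⟨⟨⟨g1, g2⟩, g3⟩, g4⟩ := hY₀ Y hY
  push_cast at g4
  have hN₀R : (0 : ℝ) ≤ N₀ := Nat.cast_nonneg _
  have hXpR : (0 : ℝ) ≤ Xp := Nat.cast_nonneg _
  have hY8 : 8 ≤ Y := by linarith
  have hY0 : 0 < Y := by linarith
  have hY1 : 1 ≤ Y := by linarith
  have hA : Y ^ (1 + δ) = Y * Y ^ δ := by rw [Real.rpow_add hY0, Real.rpow_one]
  have h32 : 32 ≤ 32 / c₁ := by
    rw [le_div_iff₀ hc₁]
    linarith
  have hδY : 32 / c₁ ≤ Y ^ δ := g1.trans (Real.rpow_le_rpow_of_exponent_le hY1 (by linarith))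
  have hδ32 : 32 ≤ Y ^ δ := h32.trans hδY
  have hYδ0 : 0 < Y ^ δ := by positivity
  set N : ℕ := ⌊Y ^ (1 + δ) / 4⌋₊ with hNd
  have hNle : (N : ℝ) ≤ Y ^ (1 + δ) / 4 := Nat.floor_le (by positivity)
  have hNge : Y ^ (1 + δ) / 8 ≤ N := by
    have h1 : Y ^ (1 + δ) / 4 < (N : ℝ) + 1 := Nat.lt_floor_add_one _
    have h2 : 8 ≤ Y ^ (1 + δ) := by
      rw [hA]
      nlinarith
    linarith
  have hNY : Y ≤ N := by
    refine le_trans ?_ hNge
    rw [hA]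
    nlinarith
  set X' : ℕ := ⌊c₁ * N / 2⌋₊ with hX'd
  have hX'le : (X' : ℝ) ≤ c₁ * N / 2 := Nat.floor_le (by positivity)
  have hcN : 8 ≤ c₁ * N := by
    have h2 : 8 / c₁ ≤ (N : ℝ) := g3.trans hNY
    rw [div_le_iff₀ hc₁] at h2
    linarith
  have hX'ge : c₁ * N / 4 ≤ X' := by
    have h1 : c₁ * N / 2 < (X' : ℝ) + 1 := Nat.lt_floor_add_one _
    linarith
  have hX'Y1 : c₁ * Y ^ (1 + δ) / 32 ≤ X' := by
    refine le_trans ?_ hX'ge
    nlinarith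
  have hX'Y : Y ≤ X' := by
    refine le_trans ?_ hX'Y1
    rw [hA]
    rw [div_le_iff₀ hc₁] at hδY
    nlinarith
  -- the set of integers
  have hSN : c₀ * N ≤ (((Finset.range N).filter (fun m => m ∈ S)).card : ℝ) := hN₀ N (by
    have : (N₀ : ℝ) ≤ N := by linarith
    exact_mod_cast this)
  set T : Finset ℕ := (Finset.range N).filter (fun n => X' < n ∧ n ∈ S) with hT
  have hScard : (((Finset.range N).filter (fun m => m ∈ S)).card : ℝ) ≤ T.card + (X' + 1) := by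
    have h1 : (Finset.range N).filter (fun m => m ∈ S) ⊆ T ∪ Finset.range (X' + 1) := by
      intro n hn
      rw [Finset.mem_filter] at hn
      rw [Finset.mem_union]
      by_cases h : X' < n
      · exact Or.inl (Finset.mem_filter.2 ⟨hn.1, h, hn.2⟩)
      · right
        rw [Finset.mem_range]
        omega
    have h3 := (Finset.card_le_card h1).trans (Finset.card_union_le _ _)
    rw [Finset.card_range] at h3
    exact_mod_cast h3
  have hS'card : c₁ * N / 4 ≤ (T.card : ℝ) := by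
    have : c₁ * N ≤ c₀ * N := by gcongr
    linarith
  -- the elements of `T`
  have hTle : ∀ v ∈ T, X' < v ∧ v ≤ 2 * N := by
    intro v hv
    rw [hT, Finset.mem_filter, Finset.mem_range] at hv
    exact ⟨hv.2.1, by omega⟩
  have h2I : 2 * N ≤ 2 ^ I * X' := by
    have h1 : (2 : ℝ) * N ≤ 2 ^ I * X' := by
      have h2 : 8 / c₁ * (c₁ * N / 4) ≤ 2 ^ I * X' := by gcongr
      have h3 : 8 / c₁ * (c₁ * N / 4) = 2 * N := by
        field_simp
        ring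
      linarith
    exact_mod_cast h1
  obtain ⟨i, hi, hpig⟩ := pigeon T X' I hI0 (fun v hv => ⟨(hTle v hv).1, (hTle v hv).2.trans h2I⟩)
  set X : ℕ := 2 ^ i * X' with hX
  set P : Finset ℕ := T.filter (fun v => v ∈ Ioc X (2 * X)) with hPd
  have hPsub : P ⊆ Ioc X (2 * X) := fun v hv => (Finset.mem_filter.1 hv).2
  have hX'X : X' ≤ X := by
    rw [hX]
    exact Nat.le_mul_of_pos_left _ (by positivity)
  have hX'XR : (X' : ℝ) ≤ X := by exact_mod_cast hX'X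
  have hXI : (X : ℝ) ≤ 2 ^ I * N := by
    have h1 : X ≤ 2 ^ I * X' := by
      rw [hX]
      exact Nat.mul_le_mul_right _ (Nat.pow_le_pow_right (by norm_num) hi.le)
    have h2 : (X : ℝ) ≤ 2 ^ I * X' := by exact_mod_cast h1
    have h3 : (X' : ℝ) ≤ N := by nlinarith
    calc (X : ℝ) ≤ 2 ^ I * X' := h2
      _ ≤ 2 ^ I * N := by gcongr
  have hXY : Y ≤ X := hX'Y.trans hX'XR
  have hX0 : (0 : ℝ) < X := by linarith
  have hX1 : (1 : ℝ) ≤ X := by linarith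
  have hYX : Y ≤ (X : ℝ) ^ (1 - δ / 4) := by
    have h1 : (c₁ / 32 * Y ^ (1 + δ)) ^ (1 - δ / 4) ≤ (X : ℝ) ^ (1 - δ / 4) := by
      apply Real.rpow_le_rpow (by positivity) _ (by linarith)
      refine le_trans ?_ hX'XR
      refine le_trans (le_of_eq ?_) hX'Y1
      ring
    refine le_trans ?_ h1
    rw [Real.mul_rpow (by positivity) (by positivity), ← Real.rpow_mul hY0.le]
    have h2 : c₁ / 32 ≤ (c₁ / 32) ^ (1 - δ / 4) := by
      calc c₁ / 32 = (c₁ / 32) ^ (1 : ℝ) := (Real.rpow_one _).symm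
        _ ≤ (c₁ / 32) ^ (1 - δ / 4) :=
          Real.rpow_le_rpow_of_exponent_ge (by positivity) (by linarith) (by linarith)
    have h3 : Y ^ (1 + δ / 2) ≤ Y ^ ((1 + δ) * (1 - δ / 4)) := by
      apply Real.rpow_le_rpow_of_exponent_le hY1
      nlinarith
    have h4 : Y ^ (1 + δ / 2) = Y * Y ^ (δ / 2) := by rw [Real.rpow_add hY0, Real.rpow_one]
    have h5 : Y ≤ c₁ / 32 * (Y * Y ^ (δ / 2)) := by
      rw [div_le_iff₀ hc₁] at g1
      nlinarith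
    calc Y ≤ c₁ / 32 * (Y * Y ^ (δ / 2)) := h5
      _ ≤ (c₁ / 32) ^ (1 - δ / 4) * Y ^ ((1 + δ) * (1 - δ / 4)) := by
          rw [← h4]
          apply mul_le_mul h2 h3 (by positivity) (by positivity)
  have hXκ : (X : ℝ) ^ (-κ₁) ≤ Y ^ (-κ₁) :=
    Real.rpow_le_rpow_of_nonpos hY0 hXY (by linarith)
  have hXκ1 : (X : ℝ) ^ (-κ₁) ≤ 1 := Real.rpow_le_one_of_one_le_of_nonpos hX1 (by linarith)
  have hXpX : Xp ≤ X := by
    have : (Xp : ℝ) ≤ X := by linarith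
    exact_mod_cast this
  obtain ⟨E, hE1, hE2, hE3⟩ := hP X hXpX P hPsub Y 1 hY0 hYX hXκ1 hY1
  refine ⟨E, hE1, hE2.trans (ENNReal.ofReal_le_ofReal ?_), fun x hx1 hx2 hxE => ?_⟩
  · rw [sub_eq_add_neg, Real.rpow_add hY0, Real.rpow_one]
    exact mul_le_mul_of_nonneg_left hXκ hY0.le
  have hx0 : 0 < x := hY0.trans_le hx1
  have h3 := (abs_le.1 (hE3 x hx1 hx2 hxE)).1
  have h5 := pairs_le P (fun y => ∃ m ∈ S, (m : ℝ) < y ∧ y < m + 1) (Y ^ δ) x hx0 (by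
      intro g hg
      have h6 := (hTle g (Finset.mem_filter.1 hg).1).2
      have h7 : (g : ℝ) ≤ 2 * N := by exact_mod_cast h6
      have h8 : Y ^ δ * Y ≤ Y ^ δ * x := by gcongr
      rw [mul_comm (Y ^ δ) Y, ← hA] at h8
      have h9 : 8 ≤ Y ^ (1 + δ) := by
        rw [hA]
        nlinarith
      linarith) (by
      intro g hg y hy1 hy2
      have h6 := (Finset.mem_filter.1 (Finset.mem_filter.1 hg).1).2.2
      exact ⟨g, h6, hy1, hy2⟩)
  have h5R : (({q : ℕ × ℕ | q.2 ∈ P ∧ (q.1 : ℝ) * x - 1 < q.2 ∧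
      (q.2 : ℝ) < q.1 * x}.ncard : ℕ) : ℝ) ≤
      (({k : ℕ | (k : ℝ) ≤ Y ^ δ ∧ ∃ m ∈ S, (m : ℝ) < k * x ∧ k * x < m + 1}.ncard : ℕ) : ℝ) := by
    exact_mod_cast h5
  refine le_trans ?_ h5R
  have hPcard : c₁ * N / (4 * I) ≤ (P.card : ℝ) := by
    refine le_trans ?_ hpig
    rw [div_le_div_iff₀ (by positivity) hIR]
    nlinarith
  have herr : (X : ℝ) ^ (1 - κ₁) ≤ c₁ * N / (8 * I) := by
    rw [sub_eq_add_neg, Real.rpow_add hX0, Real.rpow_one]
    have h6 : Y ^ (-κ₁) ≤ c₁ / (2 ^ I * (8 * I)) := by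
      rw [Real.rpow_neg hY0.le, inv_le_comm₀ (by positivity) (by positivity), inv_div]
      exact g2
    calc (X : ℝ) * (X : ℝ) ^ (-κ₁) ≤ (2 ^ I * N) * (c₁ / (2 ^ I * (8 * I))) := by
          apply mul_le_mul hXI (hXκ.trans h6) (by positivity) (by positivity)
      _ = c₁ * N / (8 * I) := by
          field_simp
  have hhalf : c₁ * N / (4 * I) = c₁ * N / (8 * I) + c₁ * N / (8 * I) := by
    field_simp
    ring
  have h7 : 1 / x * (c₁ * N / (8 * I)) ≤ 1 / x * (P.card : ℝ) - 1 / x * (X : ℝ) ^ (1 - κ₁) := by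
    rw [← mul_sub]
    apply mul_le_mul_of_nonneg_left _ (by positivity)
    linarith
  have h8 : c₁ / (128 * I) * Y ^ δ ≤ 1 / x * (c₁ * N / (8 * I)) := by
    have h9 : c₁ / (128 * I) * Y ^ δ = 1 / (2 * Y) * (c₁ * (Y ^ (1 + δ) / 8) / (8 * I)) := by
      rw [hA]
      field_simp
      ring
    rw [h9]
    gcongr
  linarith

end Pool.Agent.H622R3.SP
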