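import Mathlib
import Pool.Agent.H749R6.CM.Main

/-! The integers `g` such that every `y ∈ (g, g + 1)` has exactly `m` primes in
`(y - lam log y, y)` and no prime in `(y - Lam log y, y - lam log y]` have positive lower density. -/

set_option autoImplicit false

namespace Pool.Agent.H622R3.SP

open Finset MeasureTheory Filter Topology Pool.Agent.H749R6.CM

open Classical in
theorem pois_density
    (hpois : ∀ (lam Lam : ℝ) (m : ℕ), 0 < lam → 0 ≤ Lam → ∃ c : ℝ, 0 < c ∧ ∃ N₀ : ℕ, ∀ N : ℕ,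
      N₀ ≤ N → c * N ≤ ({n : ℕ | n ∈ Finset.Icc 1 N ∧
        Nat.primeCounting ⌊(n : ℝ) + lam * Real.log n⌋₊ = Nat.primeCounting n + m ∧
        Nat.primeCounting n = Nat.primeCounting ⌊(n : ℝ) - Lam * Real.log n⌋₊}.ncard : ℝ))
    (lam Lam : ℝ) (m : ℕ) (hlam : 0 < lam) (hLam : lam ≤ Lam) : ∃ c : ℝ, 0 < c ∧
      ∀ᶠ N : ℕ in atTop, c * N ≤ (((Finset.range N).filter (fun g : ℕ => g ∈
        {g : ℕ | ∀ y : ℝ, (g : ℝ) < y → y < g + 1 → Q lam Lam m y})).card : ℝ) := by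
  obtain ⟨c₀, hc₀, N₀, hN₀⟩ := hpois (lam / 2) (2 * Lam) m (by positivity) (by linarith)
  obtain ⟨n₂, hn₂1, hn₂⟩ := thresh lam hlam
  refine ⟨c₀ / 8, by positivity, ?_⟩
  filter_upwards [eventually_ge_atTop (2 * N₀ + 2 * n₂ + 8 + ⌈(16 * (n₂ : ℝ) / c₀)⌉₊)] with N hN
  obtain ⟨M, hM⟩ : ∃ M : ℕ, M = (N - 1) / 2 := ⟨_, rfl⟩
  have hM1 : N₀ ≤ M := by omega
  have hM2 : 2 * M < N := by omega
  have hM4 : N ≤ 4 * M := by omega
  have hNr : 16 * (n₂ : ℝ) / c₀ ≤ N := by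
    refine (Nat.le_ceil _).trans ?_
    exact_mod_cast (by omega : ⌈(16 * (n₂ : ℝ) / c₀)⌉₊ ≤ N)
  rw [div_le_iff₀ hc₀] at hNr
  have hM4r : (N : ℝ) ≤ 4 * M := by exact_mod_cast hM4
  set S : Set ℕ := {n : ℕ | n ∈ Finset.Icc 1 M ∧
        Nat.primeCounting ⌊(n : ℝ) + lam / 2 * Real.log n⌋₊ = Nat.primeCounting n + m ∧
        Nat.primeCounting n = Nat.primeCounting ⌊(n : ℝ) - 2 * Lam * Real.log n⌋₊} with hS
  have hSM : c₀ * M ≤ (S.ncard : ℝ) := hN₀ M hM1
  set S' : Finset ℕ := (Finset.Icc 1 M).filter (fun n => n₂ < n ∧ n ∈ S) with hS'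
  have hScard : (S.ncard : ℝ) ≤ S'.card + n₂ := by
    have h1 : S ⊆ ((S' ∪ Finset.Icc 1 n₂ : Finset ℕ) : Set ℕ) := by
      intro n hn
      rw [Finset.mem_coe, Finset.mem_union]
      by_cases h : n₂ < n
      · exact Or.inl (Finset.mem_filter.2 ⟨hn.1, h, hn⟩)
      · right
        rw [Finset.mem_Icc]
        exact ⟨(Finset.mem_Icc.1 hn.1).1, by omega⟩
    have h2 := Set.ncard_le_ncard h1 (Finset.finite_toSet _)
    rw [Set.ncard_coe_finset] at h2
    have h3 := h2.trans (Finset.card_union_le _ _)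
    rw [Nat.card_Icc, Nat.add_sub_cancel] at h3
    exact_mod_cast h3
  set T : Finset ℕ := S'.image (gg lam) with hT
  have hTcard : T.card = S'.card := by
    apply Finset.card_image_of_injOn
    intro a ha b hb hab
    have ha1 := (Finset.mem_Icc.1 (Finset.mem_filter.1 ha).1).1
    have hb1 := (Finset.mem_Icc.1 (Finset.mem_filter.1 hb).1).1
    by_contra hne
    rcases Nat.lt_or_gt_of_ne hne with h | h
    · exact absurd hab (gg_inj lam hlam ha1 h).ne
    · exact absurd hab (gg_inj lam hlam hb1 h).ne'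
  have hsub : T ⊆ (Finset.range N).filter (fun g : ℕ => g ∈
        {g : ℕ | ∀ y : ℝ, (g : ℝ) < y → y < g + 1 → Q lam Lam m y}) := by
    intro v hv
    obtain ⟨n, hn, rfl⟩ := Finset.mem_image.1 hv
    rw [hS', Finset.mem_filter, Finset.mem_Icc] at hn
    obtain ⟨⟨hn1, hnM⟩, hn2, hnS⟩ := hn
    obtain ⟨t1, t2, t3⟩ := hn₂ n hn2.le
    rw [Finset.mem_filter, Finset.mem_range]
    constructor
    · have h4 : ((gg lam n : ℕ) : ℝ) ≤ 2 * M := by
        unfold gg
        refine (Nat.floor_le (by positivity)).trans ?_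
        have : (n : ℝ) ≤ M := by exact_mod_cast hnM
        linarith
      have h5 : gg lam n ≤ 2 * M := by exact_mod_cast h4
      omega
    · intro y hy1 hy2
      exact local_property lam Lam m hlam hLam n (by omega) t1 t2 hnS.2.1 hnS.2.2 y hy1 hy2
  have h1 := Finset.card_le_card hsub
  rw [hTcard] at h1
  have h2 : (S'.card : ℝ) ≤ (((Finset.range N).filter (fun g : ℕ => g ∈
        {g : ℕ | ∀ y : ℝ, (g : ℝ) < y → y < g + 1 → Q lam Lam m y})).card : ℝ) := by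
    exact_mod_cast h1
  refine le_trans ?_ h2
  nlinarith

end Pool.Agent.H622R3.SP
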